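import Pool.Agent.Lib.MP_144d21_co.XU.Iface

/-!
# MP_144d21_co, project XU: gluing for chromatic polynomials (module CHIGL) (helper32)
-/

set_option autoImplicit false

namespace Pool.Agent.Xu.H32

open Finset Polynomial

/-- module CHIGL -/
theorem chigl (hG : GlueS) (hC : ChiS) : ChiglS := by
  intro V _ _ G S1 S2 hsep
  refine ⟨fun h => ?_, fun x h => ?_, fun x y hxy h => ?_⟩
  · apply poly_ext
    intro q
    have h1 := hG V G S1 S2 hsep (fun a ha => absurd (h ▸ ha) (Finset.notMem_empty a)) q
    rw [h, card_empty, Nat.descFactorial_zero, one_mul] at h1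
    rw [eval_mul, hC V G (S1 ∪ S2) q, hC V G S1 q, hC V G S2 q]
    exact_mod_cast h1
  · apply poly_ext
    intro q
    have h1 := hG V G S1 S2 hsep (by
      rw [h]
      intro a ha b hb hab
      rw [mem_singleton] at ha hb
      exact absurd (ha.trans hb.symm) hab) q
    rw [h, card_singleton, Nat.descFactorial_one] at h1
    rw [eval_mul, eval_mul, eval_X, hC V G (S1 ∪ S2) q, hC V G S1 q, hC V G S2 q]
    exact_mod_cast h1
  · apply poly_ext
    intro q
    have h1 := hG V G S1 S2 hsep (by
      rw [h]
      intro a ha b hb hab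
      rw [mem_insert, mem_singleton] at ha hb
      rcases ha with rfl | rfl <;> rcases hb with rfl | rfl
      · exact absurd rfl hab
      · exact hxy
      · exact hxy.symm
      · exact absurd rfl hab) q
    rw [h, card_pair hxy.ne] at h1
    rw [eval_mul, eval_mul, eval_mul, eval_sub, eval_X, eval_C, hC V G (S1 ∪ S2) q,
      hC V G S1 q, hC V G S2 q]
    have h2 : ((q.descFactorial 2 : ℕ) : ℤ) = (q : ℤ) * ((q : ℤ) - 1) := by
      rcases q with _ | q
      · simp
      · rw [Nat.succ_descFactorial_succ, Nat.descFactorial_one]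
        push_cast
        ring
    rw [← h2]
    exact_mod_cast h1

end Pool.Agent.Xu.H32
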